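import Pool.Agent.helper11.OFP.Spec

set_option autoImplicit false

open MeasureTheory

namespace Pool.Agent.OFP

open Pool.Agent.LOF

/-- the elements which fix the first `n + 1` points of the sequence -/
def LXW_C (x : ℕ → ℝ) (n : ℕ) : Subgroup F where
  carrier := {g | ∀ i ≤ n, g.1 (x i) = x i}
  one_mem' := fun _ _ => rfl
  mul_mem' := by
    intro g h hg hh i hi
    show g.1 (h.1 (x i)) = x i
    rw [hh i hi, hg i hi]
  inv_mem' := by
    intro g hg i hi
    show g.1.symm (x i) = x i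
    exact g.1.symm_apply_eq.2 (hg i hi).symm

theorem LXW_mem (x : ℕ → ℝ) (n : ℕ) (g : F) : g ∈ LXW_C x n ↔ ∀ i ≤ n, g.1 (x i) = x i := Iff.rfl

/-- an element moving `t` and fixing the first points -/
theorem LXW_move (hBMP : BMP_stmt) (x : ℕ → ℝ) (n : ℕ) (t : ℝ) (h0 : 0 < t) (h1 : t < 1)
    (ht : ∀ i ≤ n, x i ≠ t) : ∃ g ∈ LXW_C x n, g.1 t < t := by
  classical
  have hcl : IsClosed (((Finset.range (n + 1)).image x : Finset ℝ) : Set ℝ) :=
    (Finset.finite_toSet _).isClosed
  have hop : IsOpen (((Finset.range (n + 1)).image x : Finset ℝ) : Set ℝ)ᶜ := hcl.isOpen_compl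
  have hmem : t ∈ (((Finset.range (n + 1)).image x : Finset ℝ) : Set ℝ)ᶜ := by
    simp only [Set.mem_compl_iff, Finset.coe_image, Set.mem_image, Finset.mem_coe, Finset.mem_range,
      not_exists, not_and]
    intro i hi
    exact ht i (by omega)
  obtain ⟨ε, hε, hb⟩ := Metric.isOpen_iff.1 hop t hmem
  have hfar : ∀ i ≤ n, x i ≤ t - ε ∨ t + ε ≤ x i := by
    intro i hi
    by_contra hcon
    push Not at hcon
    have h2 : x i ∈ Metric.ball t ε := by
      rw [Metric.mem_ball, Real.dist_eq, abs_lt]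
      constructor <;> linarith [hcon.1, hcon.2]
    have h3 := hb h2
    apply h3
    simp only [Finset.coe_image, Set.mem_image, Finset.mem_coe, Finset.mem_range]
    exact ⟨i, by omega, rfl⟩
  obtain ⟨g, hg1, hg2, -⟩ := hBMP (max 0 (t - ε)) t (min 1 (t + ε)) (le_max_left _ _)
    (max_lt h0 (by linarith)) (lt_min h1 (by linarith)) (min_le_left _ _)
  refine ⟨g, ?_, hg2⟩
  intro i hi
  apply hg1
  rcases hfar i hi with h | h
  · left
    exact le_trans h (le_max_right _ _)
  · right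
    exact le_trans (min_le_right _ _) h

theorem LXW_cvx (r : LO F) (x : ℕ → ℝ) (s : ℕ → Bool) (hr : IsLex r x s) (n : ℕ) :
    Cvx r (LXW_C x n) := by
  classical
  intro a ha b hb h hah hhb
  rw [LXW_mem] at ha hb ⊢
  by_contra hcon
  push Not at hcon
  have hex : ∃ i, i ≤ n ∧ h.1 (x i) ≠ x i := hcon
  obtain ⟨hi1, hi2⟩ := Nat.find_spec hex
  have hmin : ∀ i < Nat.find hex, h.1 (x i) = x i := by
    intro i hi
    have h1 := Nat.find_min hex hi
    by_contra h2
    exact h1 ⟨by omega, h2⟩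
  generalize Nat.find hex = i₀ at hi1 hi2 hmin
  obtain ⟨m, hm1, hm2⟩ := (hr a h).1 hah
  obtain ⟨m', hm1', hm2'⟩ := (hr h b).1 hhb
  have e1 : m = i₀ := by
    rcases lt_trichotomy m i₀ with h1 | h1 | h1
    · exfalso
      have h2 := ha m (by omega)
      have h3 := hmin m h1
      rw [h2, h3] at hm2
      rcases hm2 with h4 | h4
      · exact lt_irrefl _ h4.2
      · exact lt_irrefl _ h4.2
    · exact h1
    · exfalso
      have h2 := hm1 i₀ h1
      rw [ha i₀ hi1] at h2
      exact hi2 h2.symm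
  have e2 : m' = i₀ := by
    rcases lt_trichotomy m' i₀ with h1 | h1 | h1
    · exfalso
      have h2 := hb m' (by omega)
      have h3 := hmin m' h1
      rw [h2, h3] at hm2'
      rcases hm2' with h4 | h4
      · exact lt_irrefl _ h4.2
      · exact lt_irrefl _ h4.2
    · exact h1
    · exfalso
      have h2 := hm1' i₀ h1
      rw [hb i₀ hi1] at h2
      exact hi2 h2
  subst e1
  subst e2
  rw [ha m' hi1] at hm2
  rw [hb m' hi1] at hm2'
  rcases hm2 with ⟨h1, h2⟩ | ⟨h1, h2⟩
  · rcases hm2' with ⟨h3, h4⟩ | ⟨h3, h4⟩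
    · exact lt_irrefl _ (h2.trans h4)
    · rw [h1] at h3
      exact absurd h3 (by decide)
  · rcases hm2' with ⟨h3, h4⟩ | ⟨h3, h4⟩
    · rw [h1] at h3
      exact absurd h3 (by decide)
    · exact lt_irrefl _ (h2.trans h4)

theorem LXW (hBMP : BMP_stmt) : LXW_stmt := by
  classical
  intro r x s hx hr a b ha hab hb
  obtain ⟨hx1, hx2, hx3⟩ := hx
  obtain ⟨n, hn1, hn2⟩ := hx3 a b ha hab hb
  refine ⟨LXW_C x n, LXW_cvx r x s hr n, ?_, ?_, x n, ?_, hn1, hn2⟩
  · intro hbot
    obtain ⟨g, hg1, hg2⟩ := LXW_move hBMP x n (x (n + 1)) (hx1 _).1 (hx1 _).2 (by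
      intro i hi h
      have := hx2 h
      omega)
    rw [hbot, Subgroup.mem_bot] at hg1
    rw [hg1] at hg2
    exact lt_irrefl _ hg2
  · apply ((Finset.range (n + 1)).image x).finite_toSet.subset
    rintro t ⟨h0, h1, ht⟩
    by_contra hcon
    simp only [Finset.coe_image, Set.mem_image, Finset.mem_coe, Finset.mem_range,
      not_exists, not_and] at hcon
    obtain ⟨g, hg1, hg2⟩ := LXW_move hBMP x n t h0 h1 (fun i hi => hcon i (by omega))
    rw [ht g hg1] at hg2
    exact lt_irrefl _ hg2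
  · exact ⟨(hx1 n).1, (hx1 n).2, fun g hg => hg n le_rfl⟩

end Pool.Agent.OFP
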